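import Pool.Agent.T6.H20.CT.Field
import Pool.Agent.T6.H20.CT.Auto2

/-!
# Smooth subvarieties of codimension two with linear symmetries, in all dimensions `n ≥ 6`

Let `n ≥ 6`, and let `X ⊂ ℙⁿ` be a nonsingular subvariety of codimension two which is the zero
scheme of a section of a rank two bundle (every nonsingular `X` of codimension two is of this form,
by the theorems of Barth-Larsen and Serre).  We prove that `X` is a transversal intersection of two
hypersurfaces if one of the following conditions holds; here `X` is cut out set-theoretically by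
forms of degree at most `d` (every `X` is, for some `d`).

(1) `X` has a linear automorphism of order greater than `(2 d)ⁿ` (finite or infinite).

(2) `X` has more than `((n + 1) (2 d)²ⁿ)^((n + 1)³)` linear automorphisms.

(3) `X` has infinitely many linear automorphisms.

(4) A linear vector field which is not a multiple of the Euler field is tangent to `X`.

In particular this holds for the smooth fourfolds in `ℙ⁶` (question Q2).

The proof.  The trace of the vector field on the conormal bundle of `X` is compared with the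
determinant of `E`; it is a constant, because a regular function on `X` is constant, and therefore
the vector field lifts locally to `E` annihilating the section `s`.  The local lifts differ by
endomorphisms of `E` of trace zero annihilating `s`, which are `t · s ⊗ s` with a section `t` of a
line bundle, and `H¹` of a line bundle vanishes, so the vector field lifts to `(E, s)`.  By the
Jordan decomposition and rationality it can be replaced by a torus, and an analysis of the weights at
the fixed points shows that `E` splits as soon as `n ≥ 6`.  The statements on automorphisms follow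
by the interpolation argument of `MP_9a3fdb_ag.ManyAutomorphisms`.
-/

set_option autoImplicit false

namespace Pool.Agent.Results.MP_9a3fdb_ag.AutomorphismsCodimTwo

open MvPolynomial H960VB

/-- the affine cone over the projective zero set `X` of the ideal `I` -/
def cone {n : ℕ} (I : Ideal (MvPolynomial (Fin (n + 1)) ℂ)) : Set (Fin (n + 1) → ℂ) :=
  {x | ∀ F ∈ I, eval x F = 0}

/-- the gradient at the point `x` -/
noncomputable def grad {n : ℕ} (F : MvPolynomial (Fin (n + 1)) ℂ) (x : Fin (n + 1) → ℂ) :
    Fin (n + 1) → ℂ := fun i => eval x (pderiv i F)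

/-- the conormal space at the point `x` of the cone -/
noncomputable def conormal {n : ℕ} (I : Ideal (MvPolynomial (Fin (n + 1)) ℂ))
    (x : Fin (n + 1) → ℂ) : Submodule ℂ (Fin (n + 1) → ℂ) :=
  Submodule.span ℂ {v | ∃ F ∈ I, v = grad F x}

/-- `I` is the homogeneous ideal of a nonsingular irreducible closed subvariety `X` of
codimension `r` of the complex projective space `ℙⁿ`: it is a homogeneous prime ideal, `X` is not
empty, and at every point of `X` the gradients of the elements of `I` span a space of dimension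
`r` (Jacobian criterion). -/
structure IsSmoothVariety (n r : ℕ) (I : Ideal (MvPolynomial (Fin (n + 1)) ℂ)) : Prop where
  prime : I.IsPrime
  homogeneous : ∀ F ∈ I, ∀ d, homogeneousComponent d F ∈ I
  nonempty : ∃ x ∈ cone I, x ≠ 0
  smooth : ∀ x ∈ cone I, x ≠ 0 → Module.finrank ℂ (conormal I x) = r

/-- `X` is a transversal intersection of `r` hypersurfaces: there are forms `F_1, …, F_r` with
`X = V(F_1, …, F_r)`, with linearly independent differentials at every point of `X`, and
generating the homogeneous ideal `I` of `X`. -/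
def IsTransversalIntersection (n r : ℕ) (I : Ideal (MvPolynomial (Fin (n + 1)) ℂ)) : Prop :=
  ∃ F : Fin r → MvPolynomial (Fin (n + 1)) ℂ, (∀ i, ∃ d, (F i).IsHomogeneous d) ∧
    (∀ x, x ∈ cone I ↔ ∀ i, eval x (F i) = 0) ∧
    (∀ x ∈ cone I, x ≠ 0 → LinearIndependent ℂ (fun i => grad (F i) x)) ∧
    I = Ideal.span (Set.range F)

/-- `X` is, as a scheme, the zero scheme of the global section `s` of the rank two bundle `E`: the
ideal `I` of `X` is the saturation of the ideal generated by the coordinates of `s`. -/
def IsZeroScheme {n : ℕ} (E : Bundle2 n) (s : Fin E.a → MvPolynomial (Fin (n + 1)) ℂ)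
    (I : Ideal (MvPolynomial (Fin (n + 1)) ℂ)) : Prop :=
  E.IsSection 0 s ∧ ∀ F, F ∈ I ↔ ∃ N : ℕ, ∀ i, X i ^ N * F ∈ Ideal.span (Set.range s)

/-- `X` is cut out set-theoretically by forms of degree at most `d`. -/
def IsCutOut {n : ℕ} (d : ℕ) (I : Ideal (MvPolynomial (Fin (n + 1)) ℂ)) : Prop :=
  ∀ x, (∀ F ∈ I, F.totalDegree ≤ d → eval x F = 0) → x ∈ cone I

/-- The matrix `A` is invertible and maps `X` to itself. -/
def Preserves {n : ℕ} (A : Matrix (Fin (n + 1)) (Fin (n + 1)) ℂ)
    (I : Ideal (MvPolynomial (Fin (n + 1)) ℂ)) : Prop :=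
  IsUnit A ∧ ∀ x ∈ cone I, A.mulVec x ∈ cone I

/-- The matrices `A` and `B` induce different maps on `X`. -/
def Differ {n : ℕ} (A B : Matrix (Fin (n + 1)) (Fin (n + 1)) ℂ)
    (I : Ideal (MvPolynomial (Fin (n + 1)) ℂ)) : Prop :=
  ∃ x ∈ cone I, ∀ c : ℂ, A.mulVec x ≠ c • B.mulVec x

/-- The linear vector field `x ↦ N x` is tangent to `X`: the gradients at the points `x` of the cone
of the elements of `I` are orthogonal to `N x`. -/
def IsTangent {n : ℕ} (N : Matrix (Fin (n + 1)) (Fin (n + 1)) ℂ)
    (I : Ideal (MvPolynomial (Fin (n + 1)) ℂ)) : Prop :=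
  ∀ x ∈ cone I, ∀ F ∈ I, ∑ k, grad F x k * N.mulVec x k = 0

/-- **Smooth subvarieties of codimension two with linear symmetries.** -/
theorem result (n : ℕ) (hn : 6 ≤ n) (I : Ideal (MvPolynomial (Fin (n + 1)) ℂ))
    (hI : IsSmoothVariety n 2 I)
    -- `X` is the zero scheme of a section of `E`
    (E : Bundle2 n) (s : Fin E.a → MvPolynomial (Fin (n + 1)) ℂ) (hs : IsZeroScheme E s I) :
    -- an automorphism of large order
    (∀ d : ℕ, 1 ≤ d → IsCutOut d I → ∀ g : Matrix (Fin (n + 1)) (Fin (n + 1)) ℂ,
      Preserves g I → (∀ m : ℕ, 0 < m → m ≤ (2 * d) ^ n → Differ (g ^ m) 1 I) →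
      IsTransversalIntersection n 2 I) ∧
    -- many automorphisms
    (∀ d : ℕ, 1 ≤ d → IsCutOut d I → ∀ S : Finset (Matrix (Fin (n + 1)) (Fin (n + 1)) ℂ),
      (∀ A ∈ S, Preserves A I) → (∀ A ∈ S, ∀ B ∈ S, A ≠ B → Differ A B I) →
      ((n + 1) * (2 * d) ^ (2 * n)) ^ ((n + 1) ^ 3) < S.card →
      IsTransversalIntersection n 2 I) ∧
    -- infinitely many automorphisms
    (∀ S : Set (Matrix (Fin (n + 1)) (Fin (n + 1)) ℂ), S.Infinite →
      (∀ A ∈ S, Preserves A I) → (∀ A ∈ S, ∀ B ∈ S, A ≠ B → Differ A B I) →
      IsTransversalIntersection n 2 I) ∧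
    -- a tangent vector field
    (∀ N : Matrix (Fin (n + 1)) (Fin (n + 1)) ℂ, IsTangent N I → (∀ c : ℂ, N ≠ c • 1) →
      IsTransversalIntersection n 2 I) := by
  classical
  have Z : Pool.Agent.W467.FX.ZS E s I :=
    { sec := Pool.Agent.W615.sec_iff.2 hs.1
      prime := hI.prime
      mem := fun i => (hs.2 _).2 ⟨0, fun j => by
        rw [pow_zero, one_mul]
        exact Ideal.subset_span ⟨i, rfl⟩⟩
      gen := by
        intro F hF x hx
        obtain ⟨N, hN⟩ := (hs.2 F).1 hF
        obtain ⟨i, hi⟩ : ∃ i, x i ≠ 0 := by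
          by_contra hc
          push Not at hc
          exact hx (funext hc)
        exact ⟨X i ^ N, by rw [map_pow, eval_X]; exact pow_ne_zero _ hi, hN i⟩
      smooth := hI.smooth
      ne := hI.nonempty }
  have hsplit : E.Splits → IsTransversalIntersection n 2 I := by
    intro hsp
    obtain ⟨F, G, hF, hG, hFG⟩ := Z.ci (by omega) hsp
    have hrange : I = Ideal.span (Set.range ![F, G]) := by
      rw [hFG, Matrix.range_cons, Matrix.range_cons, Matrix.range_empty, Set.union_empty]
      rfl
    refine ⟨![F, G], ?_, ?_, ?_, hrange⟩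
    · intro i
      fin_cases i
      · exact hF
      · exact hG
    · intro x
      constructor
      · intro hx i
        apply hx
        rw [hrange]
        exact Ideal.subset_span ⟨i, rfl⟩
      · intro hx H hH
        have h1 : I ≤ RingHom.ker (eval x) := by
          rw [hrange, Ideal.span_le]
          rintro _ ⟨i, rfl⟩
          exact hx i
        exact h1 hH
    · intro x hx hx0
      exact Pool.Agent.W467.FX.indep_of_span hrange hx (hI.smooth x hx hx0)
  have hfield : ∀ N : Matrix (Fin (n + 1)) (Fin (n + 1)) ℂ, IsTangent N I →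
      (∀ c : ℂ, N ≠ c • 1) → IsTransversalIntersection n 2 I := by
    intro N hN hc
    refine hsplit (Pool.Agent.T6.H20.CT.splits_of_field hn Z (N := N) ?_ hc)
    intro F hF
    apply Z.mem_of_vanish
    intro x hx _
    rw [Pool.Agent.W615.vf_eq_sum, map_sum]
    rw [← hN x hx F hF]
    refine Finset.sum_congr rfl fun k _ => ?_
    rw [map_mul, map_sum]
    congr 1
    simp only [map_mul, eval_C, eval_X]
    rfl
  have hyp : ¬ IsTransversalIntersection n 2 I → Pool.Agent.T6.H20.CT.HypT I := by
    intro h
    refine ⟨hI.prime, hI.homogeneous, hI.nonempty, fun N hN => ?_⟩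
    by_contra hcon
    push Not at hcon
    apply h
    refine hfield N (fun x hx F hF => hN x hx F hF) (fun c hc => ?_)
    obtain ⟨x, hx, hx'⟩ := hcon c
    apply hx'
    rw [hc, Matrix.smul_mulVec, Matrix.one_mulVec]
  have hσ : Fintype.card (Fin (n + 1)) - 1 = n := by rw [Fintype.card_fin]; omega
  have hcount : ∀ d : ℕ, 1 ≤ d → IsCutOut d I →
      ∀ S : Finset (Matrix (Fin (n + 1)) (Fin (n + 1)) ℂ),
      (∀ A ∈ S, Preserves A I) → (∀ A ∈ S, ∀ B ∈ S, A ≠ B → Differ A B I) →
      ((n + 1) * (2 * d) ^ (2 * n)) ^ ((n + 1) ^ 3) < S.card →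
      IsTransversalIntersection n 2 I := by
    intro d hd hcut S hS hdist hcard
    by_contra h
    have h1 := Pool.Agent.T6.H20.CT.matrix_countT (hyp h) d hd hcut S hS hdist
    rw [hσ, Fintype.card_fin] at h1
    omega
  refine ⟨?_, hcount, ?_, hfield⟩
  · intro d hd hcut g hg hord
    by_contra h
    obtain ⟨m, hm, hmM, hc⟩ := Pool.Agent.T6.H20.CT.matrix_orderT (hyp h) d hcut hd g hg.1 hg.2
    rw [hσ] at hmM
    obtain ⟨x, hx, hx'⟩ := hord m hm hmM
    obtain ⟨c, hc⟩ := hc x hx
    apply hx' c
    rw [Matrix.one_mulVec]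
    exact hc
  · intro S hinf hS hdist
    obtain ⟨d, hd, hcut⟩ := Pool.Agent.TH189.Aut.exists_cut I
    obtain ⟨T, hTS, hT⟩ := hinf.exists_subset_card_eq
      (((n + 1) * (2 * d) ^ (2 * n)) ^ ((n + 1) ^ 3) + 1)
    exact hcount d hd hcut T (fun A hA => hS A (hTS hA))
      (fun A hA B hB => hdist A (hTS hA) B (hTS hB)) (by rw [hT]; exact Nat.lt_succ_self _)

end Pool.Agent.Results.MP_9a3fdb_ag.AutomorphismsCodimTwo
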